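import Pool.Agent.H84.PP.Stm3

/-!
# The module F3 of the project PP: all refined boxes together
-/

set_option autoImplicit false
set_option linter.all false

namespace Pool.Agent.H23.PP

open Pool.Agent.K4H56 Pool.Agent.H84.PP

/-- the index of the refined boxes -/
def IJ (Λ n : ℕ) : Finset ((ℕ × ℕ × ℕ × ℕ × ℕ × ℕ) × (ℕ × ℕ)) :=
  HG.II Λ n ×ˢ (Finset.range (n + 1) ×ˢ Finset.range (n + 1))

theorem card_IJ (Λ n : ℕ) : (IJ Λ n).card = Λ * (n + 1) ^ 7 := by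
  unfold IJ
  rw [Finset.card_product, Finset.card_product, HG.card_II, Finset.card_range]
  ring

/-- the refined box with given index -/
def NBi (X : ℕ) (i : (ℕ × ℕ × ℕ × ℕ × ℕ × ℕ) × (ℕ × ℕ)) (x : ℚ × ℚ) : Prop :=
  NB (6 * i.1.1) X (2 ^ i.1.2.1) (2 ^ i.1.2.2.1) (2 ^ i.1.2.2.2.1) (2 ^ i.1.2.2.2.2.1)
    (2 ^ i.1.2.2.2.2.2) (2 ^ i.2.1) (2 ^ i.2.2) x

theorem coverN {D X Z : ℕ} (hXZ : 1729 * X ≤ Z) {x : ℚ × ℚ}
    (hx : x ∈ HG.PS D 13 X X) (h1 : x.1 ≠ 0) (h2 : x.1 ≠ 1728) (h3 : x.2 ≠ 0) (h4 : x.2 ≠ 1728) :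
    ∃ i ∈ IJ (144 * D + 1 + Nat.log 2 X) (Nat.log 2 Z), NBi X i x := by
  obtain ⟨i, hi, hB⟩ := HG.cover (k := 13) (by norm_num) le_rfl hXZ hx h1 h2 h3 h4
  have hden : x.1.den ≤ X := (le_max_right _ _).trans hB.j.ht
  have hBB0 : HG.BB x.1 ≠ 0 := by
    intro h0
    have h5 := HG.BB_dvd x.1
    rw [h0, zero_dvd_iff] at h5
    exact x.1.den_ne_zero h5
  have hBBX : HG.BB x.1 ≤ X := (Nat.le_of_dvd x.1.den_pos (HG.BB_dvd x.1)).trans hden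
  have hg : ∀ m : ℕ, (HG.BB x.1).gcd m ≠ 0 ∧ Nat.log 2 ((HG.BB x.1).gcd m) < Nat.log 2 Z + 1 := by
    intro m
    have h5 : (HG.BB x.1).gcd m ≤ HG.BB x.1 := Nat.gcd_le_left _ (Nat.pos_of_ne_zero hBB0)
    have h6 : (HG.BB x.1).gcd m ≤ Z := by omega
    exact ⟨(Nat.gcd_pos_of_pos_left _ (Nat.pos_of_ne_zero hBB0)).ne',
      Nat.lt_succ_of_le (Nat.log_mono_right h6)⟩
  refine ⟨(i, (Nat.log 2 ((HG.BB x.1).gcd (HG.sB x.1 x.1)),
    Nat.log 2 ((HG.BB x.1).gcd (HG.sB x.1 x.2)))), ?_, ?_⟩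
  · exact Finset.mem_product.2 ⟨hi, Finset.mem_product.2 ⟨Finset.mem_range.2 (hg _).2,
      Finset.mem_range.2 (hg _).2⟩⟩
  · exact ⟨hB, HG.two_log (hg _).1, HG.two_log (hg _).1⟩

theorem main (hBOX : S_BOX) (hPEL : S_PEL) : S_MAIN := by
  classical
  intro D ε hε
  obtain ⟨C₀, hC₀, hun⟩ := HG.exists_un (η := ε / 33) (by positivity)
  obtain ⟨C₁, hC₁, hpel⟩ := hPEL (ε / 33) (by positivity)
  have hD0 : (0 : ℝ) ≤ D := Nat.cast_nonneg _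
  obtain ⟨K, hK, hbox⟩ := hBOX (2000 * ((D : ℝ) + 1)) (by linarith)
  refine ⟨(144 * D + 2) * K * C₀ ^ 32 * C₁ * (2000 * ((D : ℝ) + 1)) ^ (5 / 4 + ε),
    by positivity, fun X hX F hF => ?_⟩
  set Z : ℕ := 2000 * (D + 1) * X with hZ
  have hX1 : (1 : ℝ) ≤ X := by exact_mod_cast hX
  have hZX : 2000 * X ≤ Z := by
    rw [hZ, mul_assoc, mul_comm (D + 1) X, ← mul_assoc]
    exact Nat.le_mul_of_pos_right _ (Nat.succ_pos _)
  have hZD : 2000 * (D + 1) ≤ Z := Nat.le_mul_of_pos_right _ hX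
  have hZ1 : 1 ≤ Z := by omega
  have hU := hun Z hZ1
  have hPB := hpel Z hZ1
  set E : ℝ := C₀ * (Z : ℝ) ^ (ε / 33) with hE
  set P : ℝ := C₁ * (Z : ℝ) ^ (ε / 33) with hP
  have hE1 := hU.one
  have hP1 : 1 ≤ P := hPB.1
  have hZr : (1 : ℝ) ≤ Z := by exact_mod_cast hZ1
  have hZ0 : (0 : ℝ) < Z := by linarith
  have hlogX : Nat.log 2 X < X := Nat.log_lt_self 2 (by omega)
  set Λ := 144 * D + 1 + Nat.log 2 X with hΛ
  have hLZ : 6 * Λ ≤ Z := by omega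
  have hΛE : (Λ : ℝ) ≤ (144 * D + 2) * E := by
    have h1 : (Nat.log 2 X : ℝ) ≤ E - 1 := by
      have h2 : (Nat.log 2 X : ℝ) ≤ Nat.log 2 Z := by
        exact_mod_cast Nat.log_mono_right (by omega)
      have := hU.lg
      linarith
    have h3 : (Λ : ℝ) = 144 * D + 1 + Nat.log 2 X := by
      rw [hΛ]
      push_cast
      ring
    rw [h3]
    nlinarith
  have hcov : F ⊆ (IJ Λ (Nat.log 2 Z)).biUnion (fun i => F.filter (fun x => NBi X i x)) := by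
    intro x hx
    obtain ⟨h1, h2, h3, h4, h5, -⟩ := hF x hx
    obtain ⟨i, hi, hB⟩ := coverN (Z := Z) (by omega) h1 h2 h3 h4 h5
    exact Finset.mem_biUnion.2 ⟨i, hi, Finset.mem_filter.2 ⟨hx, hB⟩⟩
  have hZM : (Z : ℝ) ≤ 2000 * ((D : ℝ) + 1) * X := by
    rw [hZ]
    push_cast
    exact le_rfl
  have h1 := HG.card_bU F _ _ hcov (t := K * E ^ 24 * P * (Z : ℝ) ^ (5 / 4 : ℝ)) (by
    intro i hi
    unfold IJ HG.II at hi
    simp only [Finset.mem_product, Finset.mem_Icc, Finset.mem_range] at hi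
    refine hbox Z E P hU hPB (6 * i.1.1) X (2 ^ i.1.2.1) (2 ^ i.1.2.2.1) (2 ^ i.1.2.2.2.1)
      (2 ^ i.1.2.2.2.2.1) (2 ^ i.1.2.2.2.2.2) (2 ^ i.2.1) (2 ^ i.2.2) ?_ hZM _
      (fun x hx => ?_)
    · exact
        { Z6 := by omega
          L1 := by omega
          L6 := Dvd.intro _ rfl
          LZ := by omega
          X1 := hX
          XZ := by omega
          A1 := Nat.one_le_two_pow
          B1 := Nat.one_le_two_pow
          C1 := Nat.one_le_two_pow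
          α1 := Nat.one_le_two_pow
          α2 := Nat.one_le_two_pow
          ρ1 := Nat.one_le_two_pow
          ρ2 := Nat.one_le_two_pow }
    · obtain ⟨hx1, hx2⟩ := Finset.mem_filter.1 hx
      exact ⟨hx2, (hF x hx1).2.2.2.2.2⟩)
  rw [card_IJ] at h1
  have h2 : (((Nat.log 2 Z + 1 : ℕ) : ℝ)) ^ 7 ≤ E ^ 7 := by
    refine pow_le_pow_left₀ (Nat.cast_nonneg _) ?_ 7
    push_cast
    exact hU.lg
  have h3 : (F.card : ℝ) ≤ (144 * D + 2) * K * (E ^ 32 * P * (Z : ℝ) ^ (5 / 4 : ℝ)) := by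
    refine h1.trans ?_
    calc ((Λ * (Nat.log 2 Z + 1) ^ 7 : ℕ) : ℝ) * (K * E ^ 24 * P * (Z : ℝ) ^ (5 / 4 : ℝ))
        = ((Λ : ℝ) * ((Nat.log 2 Z + 1 : ℕ) : ℝ) ^ 7) *
            (K * E ^ 24 * P * (Z : ℝ) ^ (5 / 4 : ℝ)) := by
          push_cast
          ring
      _ ≤ (((144 * D + 2) * E) * E ^ 7) * (K * E ^ 24 * P * (Z : ℝ) ^ (5 / 4 : ℝ)) := by
          refine mul_le_mul_of_nonneg_right ?_ (by positivity)
          exact mul_le_mul hΛE h2 (by positivity) (by positivity)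
      _ = (144 * D + 2) * K * (E ^ 32 * P * (Z : ℝ) ^ (5 / 4 : ℝ)) := by ring
  refine h3.trans (le_of_eq ?_)
  have e1 : E ^ 32 * P * (Z : ℝ) ^ (5 / 4 : ℝ) = C₀ ^ 32 * C₁ * (Z : ℝ) ^ (5 / 4 + ε) := by
    have e3 : (Z : ℝ) ^ (5 / 4 + ε) = ((Z : ℝ) ^ (ε / 33)) ^ 32 * (Z : ℝ) ^ (ε / 33) *
        (Z : ℝ) ^ (5 / 4 : ℝ) := by
      rw [← Real.rpow_natCast ((Z : ℝ) ^ (ε / 33)) 32, ← Real.rpow_mul hZ0.le,
        ← Real.rpow_add hZ0, ← Real.rpow_add hZ0]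
      congr 1
      push_cast
      ring
    rw [hE, hP, mul_pow, e3]
    ring
  have e2 : (Z : ℝ) ^ (5 / 4 + ε) = (2000 * ((D : ℝ) + 1)) ^ (5 / 4 + ε) *
      (X : ℝ) ^ (5 / 4 + ε) := by
    rw [← Real.mul_rpow (by positivity) (by positivity), hZ]
    push_cast
    rfl
  rw [e1, e2]
  ring

end Pool.Agent.H23.PP
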